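import Pool.Agent.SZT.StmtsB

/-!
# Squad SZT, row NIN: the node inequality
-/

set_option autoImplicit false
set_option linter.unusedSectionVars false

noncomputable section

open Polynomial H58Q

namespace Pool.Agent.SZT.H24

open Pool.Agent.SZT.B
open scoped Classical

section pint

variable {L : Type} [NormedField L] [IsUltrametricDist L]

theorem pint_sum {ι : Type} (t : Finset ι) (p : ι → L[X]) (h : ∀ i ∈ t, PInt (p i)) :
    PInt (∑ i ∈ t, p i) := by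
  intro k
  rw [finsetSum_coeff]
  exact IsUltrametricDist.norm_sum_le_of_forall_le_of_nonneg zero_le_one fun i hi => h i hi k

theorem pint_C (a : L) (h : ‖a‖ ≤ 1) : PInt (C a) := by
  intro k
  rw [coeff_C]
  split_ifs
  · exact h
  · rw [norm_zero]; exact zero_le_one

theorem pint_mul (p q : L[X]) (hp : PInt p) (hq : PInt q) : PInt (p * q) := by
  intro k
  rw [coeff_mul]
  refine IsUltrametricDist.norm_sum_le_of_forall_le_of_nonneg zero_le_one fun i _ => ?_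
  rw [norm_mul]
  exact mul_le_one₀ (hp _) (norm_nonneg _) (hq _)

theorem pint_pow (p : L[X]) (hp : PInt p) (n : ℕ) : PInt (p ^ n) := by
  induction n with
  | zero =>
    rw [pow_zero, ← C_1]
    exact pint_C 1 (by rw [norm_one])
  | succ n ih =>
    rw [pow_succ]
    exact pint_mul _ _ ih hp

theorem pint_XC (e : L) (he : ‖e‖ ≤ 1) : PInt (X + C e : L[X]) := by
  intro k
  rw [coeff_add]
  refine (IsUltrametricDist.norm_add_le_max _ _).trans (max_le ?_ (pint_C e he k))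
  rw [coeff_X]
  split_ifs
  · rw [norm_one]
  · rw [norm_zero]; exact zero_le_one

theorem pint_comp (p q : L[X]) (hp : PInt p) (hq : PInt q) : PInt (p.comp q) := by
  rw [comp_eq_sum_left, Polynomial.sum]
  exact pint_sum _ _ fun i _ => pint_mul _ _ (pint_C _ (hp i)) (pint_pow q hq i)

theorem norm_of_near {x y : L} (h : ‖x - y‖ < ‖y‖) : ‖x‖ = ‖y‖ := by
  have h1 : x = (x - y) + y := by ring
  have h2 := IsUltrametricDist.norm_add_eq_max_of_norm_ne_norm (x := x - y) (y := y) h.ne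
  rw [← h1, max_eq_right h.le] at h2
  exact h2

end pint

section main

variable {L : Type} [NormedField L] [IsUltrametricDist L] [CompleteSpace L]

/-- The function on the annulus as a Laurent series. -/
theorem series (hPmu : PmuStmt) (hExl : ExlStmt) (θ : Fin 5 → L) (s : ℕ → L) (α β : L[X])
    (h2 : ‖(2 : L)‖ = 1) (hη0 : eta θ ≠ 0) (hη1 : ‖eta θ‖ < 1) (he : ‖ctr θ‖ ≤ 1)
    (hs : ∀ k, ‖s k‖ ≤ 1) (hα : PInt α) (hβ : PInt β)
    (hz : ∀ X : L, Ann ‖eta θ‖ X → ‖(X + eta θ / X) / 2‖ < 1) :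
    ∃ c : ℤ → L, Bdd ‖eta θ‖ 1 c ∧ ∀ X : L, Ann ‖eta θ‖ X →
      val c X = α.eval (xx θ X) + β.eval (xx θ X) * yy θ s X := by
  have hβ' : PInt (β.comp (X + C (ctr θ))) := pint_comp _ _ hβ (pint_XC _ he)
  have hα' : PInt (α.comp (X + C (ctr θ))) := pint_comp _ _ hα (pint_XC _ he)
  obtain ⟨h3, h4, h5⟩ := hPmu L
  obtain ⟨c, hc, hv⟩ := hExl L (eta θ) (fun k => (α.comp (X + C (ctr θ))).coeff k)
    (fun k => ∑ i ∈ Finset.range (k + 1), (β.comp (X + C (ctr θ))).coeff i * s (k - i))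
    h2 hη0 hη1 hα' (by
      intro k
      refine IsUltrametricDist.norm_sum_le_of_forall_le_of_nonneg zero_le_one fun i _ => ?_
      rw [norm_mul]
      exact mul_le_one₀ (hβ' _) (norm_nonneg _) (hs _))
  refine ⟨c, hc, fun Y hY => ?_⟩
  have hz' := hz Y hY
  rw [hv Y hY, h5, h4 (fun k => (β.comp (X + C (ctr θ))).coeff k) s _ hβ' hs hz', h5]
  simp only [eval_comp, eval_add, eval_X, eval_C, xx, yy]
  rw [add_comm ((Y + eta θ / Y) / 2) (ctr θ)]
  ring

theorem eval_bound (p : L[X]) : ∃ K : ℝ, 0 ≤ K ∧ ∀ u : L, ‖u‖ ≤ 1 → ‖p.eval u‖ ≤ K := by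
  refine ⟨∑ i ∈ Finset.range (p.natDegree + 1), ‖p.coeff i‖,
    Finset.sum_nonneg fun i _ => norm_nonneg _, fun u hu => ?_⟩
  rw [eval_eq_sum_range]
  refine (norm_sum_le _ _).trans (Finset.sum_le_sum fun i _ => ?_)
  rw [norm_mul, norm_pow]
  exact mul_le_of_le_one_right (norm_nonneg _) (pow_le_one₀ (norm_nonneg _) hu)

theorem prod_rpow (Z : Multiset L) (w : L → ℝ) (hw : ∀ x, 0 ≤ w x) (p : ℝ) :
    (Z.map w).prod ^ p = (Z.map fun x => w x ^ p).prod := by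
  induction Z using Multiset.induction_on with
  | empty => simp
  | cons a Z ih =>
    rw [Multiset.map_cons, Multiset.prod_cons, Multiset.map_cons, Multiset.prod_cons,
      Real.mul_rpow (hw a), ih]
    apply Multiset.prod_nonneg
    intro y hy
    obtain ⟨x, _, rfl⟩ := Multiset.mem_map.mp hy
    exact hw x

theorem countP_mono' (t : Multiset L) (p q : L → Prop) [DecidablePred p] [DecidablePred q]
    (h : ∀ a ∈ t, p a → q a) : t.countP p ≤ t.countP q := by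
  induction t using Multiset.induction_on with
  | empty => simp
  | cons a t ih =>
    have ih' := ih fun b hb => h b (Multiset.mem_cons_of_mem hb)
    have ha := h a (Multiset.mem_cons_self a t)
    rw [Multiset.countP_cons, Multiset.countP_cons]
    by_cases hp : p a
    · rw [if_pos hp, if_pos (ha hp)]
      omega
    · rw [if_neg hp]
      omega

theorem norm_mprod (Z : Multiset L) (w : L → L) :
    ‖(Z.map w).prod‖ = (Z.map fun x => ‖w x‖).prod := by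
  induction Z using Multiset.induction_on with
  | empty => simp
  | cons a Z ih =>
    rw [Multiset.map_cons, Multiset.prod_cons, Multiset.map_cons, Multiset.prod_cons, norm_mul, ih]

/-- The growth of the function at a zero. -/
theorem grow_val (hLip : LipStmt) (hCht : ChtStmt) (f : L[X]) (θ : Fin 5 → L) (s : ℕ → L)
    (α β A : L[X]) (κ : L) (M : ℕ) (hN : Node f θ) (hs : Sq (hh θ) s) (hη0 : eta θ ≠ 0)
    (hη1 : ‖eta θ‖ < 1) (heq : α ^ 2 - f * β ^ 2 = C κ * A ^ M) (c : ℤ → L)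
    (hc : Bdd ‖eta θ‖ 1 c) (hv : ∀ X : L, Ann ‖eta θ‖ X →
      val c X = α.eval (xx θ X) + β.eval (xx θ X) * yy θ s X) (x : L) (hx : Ann ‖eta θ‖ x)
    (hne : α.eval (xx θ x) - β.eval (xx θ x) * yy θ s x ≠ 0) (m : ℕ)
    (hm : m ≤ A.rootMultiplicity (xx θ x)) : Grow (val c) x (M * m) := by
  obtain ⟨hc1, hc2, hc3⟩ := hCht L f θ s hN hs
  have hr : 0 < ‖eta θ‖ := norm_pos_iff.2 hη0
  have hx0 : 0 < ‖x‖ := hr.trans hx.1
  have hx0' : x ≠ 0 := norm_pos_iff.1 hx0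
  obtain ⟨w, hw⟩ : ∃ w : ℝ, w = ‖α.eval (xx θ x) - β.eval (xx θ x) * yy θ s x‖ := ⟨_, rfl⟩
  have hw0 : 0 < w := by rw [hw]; exact norm_pos_iff.2 hne
  have hF' : ∀ X : L, Ann ‖eta θ‖ X →
      val c (eta θ / X) = α.eval (xx θ X) - β.eval (xx θ X) * yy θ s X := by
    intro X hX
    obtain ⟨_, _, _, _, h5, h6, h7, _⟩ := hc1 X hX
    rw [hv _ h5, h6, h7]
    ring
  have hprod : ∀ X : L, Ann ‖eta θ‖ X →
      val c X * val c (eta θ / X) = κ * (A.eval (xx θ X)) ^ M := by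
    intro X hX
    obtain ⟨_, h2, _⟩ := hc1 X hX
    rw [hv X hX, hF' X hX]
    have h8 := congrArg (eval (xx θ X)) heq
    simp only [eval_sub, eval_mul, eval_pow, eval_C] at h8
    linear_combination h8 - (β.eval (xx θ X)) ^ 2 * h2
  obtain ⟨q, hq⟩ : (X - C (xx θ x)) ^ m ∣ A :=
    (pow_dvd_pow _ hm).trans (pow_rootMultiplicity_dvd A _)
  obtain ⟨K, hK0, hK⟩ := eval_bound q
  refine ⟨‖κ‖ * ((1 + ‖eta θ‖ / (‖x‖ * ‖x‖)) ^ m * K) ^ M / w, min ‖x‖ (w * ‖x‖),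
    lt_min hx0 (mul_pos hw0 hx0), ?_⟩
  intro Y hYx hY
  have hY1 : ‖Y - x‖ < ‖x‖ := hY.trans_le (min_le_left _ _)
  have hY2 : ‖Y - x‖ < w * ‖x‖ := hY.trans_le (min_le_right _ _)
  have hnY : ‖Y‖ = ‖x‖ := norm_of_near hY1
  have hY0 : Y ≠ 0 := by
    rw [← norm_pos_iff, hnY]
    exact hx0
  have hAY : Ann ‖eta θ‖ Y := ⟨by rw [hnY]; exact hx.1, by rw [hnY]; exact hx.2⟩
  have hAx : Ann ‖eta θ‖ (eta θ / x) := (hc1 x hx).2.2.2.2.1
  have hdiff := hLip L ‖eta θ‖ c (eta θ / Y) (eta θ / x) hr hη1 hc hAx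
    (by rw [norm_div, norm_div, hnY])
  have hd2 : ‖eta θ / Y - eta θ / x‖ / ‖eta θ / x‖ = ‖Y - x‖ / ‖x‖ := by
    have h9 : eta θ / Y - eta θ / x = eta θ * (x - Y) / (Y * x) := by
      field_simp
    rw [h9, norm_div, norm_mul, norm_mul, norm_div, hnY, norm_sub_rev x Y]
    field_simp
  have hn : ‖val c (eta θ / Y)‖ = w := by
    have h10 : ‖val c (eta θ / x)‖ = w := by rw [hF' x hx, hw]
    rw [← h10]
    apply norm_of_near
    rw [h10]
    refine hdiff.trans_lt ?_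
    rw [hd2, div_lt_iff₀ hx0]
    exact hY2
  have hxx : ‖xx θ Y - xx θ x‖ ≤ ‖Y - x‖ * (1 + ‖eta θ‖ / (‖x‖ * ‖x‖)) := by
    rw [hc3 Y x hY0 hx0', norm_div, hN.two, div_one, norm_mul]
    apply mul_le_mul_of_nonneg_left _ (norm_nonneg _)
    refine (norm_sub_le _ _).trans ?_
    rw [norm_one, norm_div, norm_mul, hnY]
  have hAe : ‖A.eval (xx θ Y)‖ ≤
      ‖Y - x‖ ^ m * ((1 + ‖eta θ‖ / (‖x‖ * ‖x‖)) ^ m * K) := by
    have h11 : A.eval (xx θ Y) = (xx θ Y - xx θ x) ^ m * q.eval (xx θ Y) := by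
      have h12 := congrArg (eval (xx θ Y)) hq
      simpa only [eval_mul, eval_pow, eval_sub, eval_X, eval_C] using h12
    have h13 : ‖xx θ Y‖ ≤ 1 := (hc1 Y hAY).2.2.2.2.2.2.2.2.1
    rw [h11, norm_mul, norm_pow, ← mul_assoc, ← mul_pow]
    exact mul_le_mul (pow_le_pow_left₀ (norm_nonneg _) hxx m) (hK _ h13) (norm_nonneg _)
      (by positivity)
  have hfin : ‖val c Y‖ * w = ‖κ‖ * ‖A.eval (xx θ Y)‖ ^ M := by
    rw [← hn, ← norm_mul, hprod Y hAY, norm_mul, norm_pow]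
  have h14 : ‖val c Y‖ = ‖κ‖ * ‖A.eval (xx θ Y)‖ ^ M / w := by
    rw [eq_div_iff hw0.ne', hfin]
  rw [h14]
  have h15 : ‖A.eval (xx θ Y)‖ ^ M ≤
      (‖Y - x‖ ^ m * ((1 + ‖eta θ‖ / (‖x‖ * ‖x‖)) ^ m * K)) ^ M :=
    pow_le_pow_left₀ (norm_nonneg _) hAe M
  calc ‖κ‖ * ‖A.eval (xx θ Y)‖ ^ M / w
      ≤ ‖κ‖ * (‖Y - x‖ ^ m * ((1 + ‖eta θ‖ / (‖x‖ * ‖x‖)) ^ m * K)) ^ M / w := by
        apply div_le_div_of_nonneg_right _ hw0.le
        exact mul_le_mul_of_nonneg_left h15 (norm_nonneg _)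
    _ = ‖κ‖ * ((1 + ‖eta θ‖ / (‖x‖ * ‖x‖)) ^ m * K) ^ M / w * ‖Y - x‖ ^ (M * m) := by
        rw [mul_pow, ← pow_mul, mul_comm m M]
        ring

end main

theorem nin (hSum : SumStmt) (hLip : LipStmt) (hFac : FacStmt) (hPmu : PmuStmt)
    (hExl : ExlStmt) (hNod : NodStmt) (hCht : ChtStmt) : NinStmt := by
  intro L _ _ _ f θ s α β A B κ M hN hs hα hβ hAm hAs hM heq hroots x hx
  obtain ⟨hc1, hc2, hc3⟩ := hCht L f θ s hN hs
  obtain ⟨⟨hη0, hη1, he⟩, _⟩ := hNod L f θ hN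
  have hr : 0 < ‖eta θ‖ := norm_pos_iff.2 hη0
  obtain ⟨c, hc, hv⟩ := series hPmu hExl θ s α β hN.two hη0 hη1 he hs.1 hα hβ
    (fun X hX => (hc1 X hX).1)
  -- the points of the multiset
  have hmem : ∀ z ∈ nz θ s A B, Ann ‖eta θ‖ z ∧ xx θ z ∈ A.roots ∧
      yy θ s z = B.eval (xx θ z) := by
    intro z hz
    unfold nz at hz
    obtain ⟨a, ha, rfl⟩ := Multiset.mem_map.1 hz
    obtain ⟨ha1, ha2⟩ := Multiset.mem_filter.1 ha
    obtain ⟨h1, h2, h3, _⟩ := hc2 a (B.eval a) (hroots a ha1).1 ha2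
    exact ⟨h1, by rw [h2]; exact ha1, by rw [h2, h3]⟩
  have hcount : ∀ z ∈ nz θ s A B, (nz θ s A B).count z ≤ A.rootMultiplicity (xx θ z) := by
    intro z hz
    rw [← count_roots]
    unfold nz
    rw [Multiset.count_map, Multiset.filter_filter, ← Multiset.countP_eq_card_filter,
      Multiset.count]
    refine countP_mono' _ _ _ fun a ha h => ?_
    obtain ⟨h1, h2⟩ := h
    rw [h1]
    exact (hc2 a (B.eval a) (hroots a ha).1 h2).2.1
  have hne : ∀ z ∈ nz θ s A B, α.eval (xx θ z) - β.eval (xx θ z) * yy θ s z ≠ 0 := by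
    intro z hz
    obtain ⟨_, h1, h2⟩ := hmem z hz
    rw [h2]
    exact (hroots _ h1).2.2
  -- the growth
  have hG : ∀ z ∈ M • nz θ s A B, Grow (val c) z ((M • nz θ s A B).count z) := by
    intro z hz
    have hz' : z ∈ nz θ s A B := Multiset.mem_of_mem_nsmul hz
    rw [Multiset.count_nsmul]
    exact grow_val hLip hCht f θ s α β A κ M hN hs hη0 hη1 heq c hc hv z (hmem z hz').1
      (hne z hz') _ (hcount z hz')
  obtain ⟨g, hg, hvg⟩ := hFac L ‖eta θ‖ 1 c (M • nz θ s A B) hr hη1 one_pos le_rfl hc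
    (fun z hz => (hmem z (Multiset.mem_of_mem_nsmul hz)).1) hG
  have hxA : Ann ‖eta θ‖ x := (hmem x hx).1
  have hx0 : x ≠ 0 := norm_pos_iff.1 (hr.trans hxA.1)
  obtain ⟨_, _, _, _, h5, h6, h7, h8, _⟩ := hc1 x hxA
  have hμ : 0 < 1 * ((M • nz θ s A B).map fun z => ‖eta θ‖ / ‖z‖).prod := by
    rw [one_mul]
    apply Multiset.prod_pos
    intro y hy
    obtain ⟨z, hz, rfl⟩ := Multiset.mem_map.1 hy
    exact div_pos hr (hr.trans (hmem z (Multiset.mem_of_mem_nsmul hz)).1.1)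
  obtain ⟨_, _, _, _, _, h9⟩ := hSum L ‖eta θ‖ _ g (eta θ / x) hr hη1 hμ hg h5
  have h10 : α.eval (xx θ x) - β.eval (xx θ x) * yy θ s x =
      ((M • nz θ s A B).map fun z => 1 - z / (eta θ / x)).prod * val g (eta θ / x) := by
    rw [← hvg _ h5, hv _ h5, h6, h7]
    ring
  have hw : ∀ z : L, 0 ≤ ‖eta θ‖ / ‖z‖ := fun z => div_nonneg (norm_nonneg _) (norm_nonneg _)
  rw [h10, norm_mul, norm_mprod]
  refine (mul_le_mul_of_nonneg_left h9 ?_).trans ?_
  · apply Multiset.prod_nonneg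
    intro y hy
    obtain ⟨z, _, rfl⟩ := Multiset.mem_map.1 hy
    exact norm_nonneg _
  rw [h8, one_mul, prod_rpow _ _ hw, ← Multiset.prod_map_mul, Multiset.map_nsmul,
    Multiset.prod_nsmul]
  apply le_of_eq
  congr 2
  apply Multiset.map_congr rfl
  intro z _
  rw [div_div_eq_mul_div]

end Pool.Agent.SZT.H24
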