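import Pool.Agent.SZT.StmtsA

/-!
# Squad SZT, row OKA: `Good2` over the complex numbers
-/

set_option autoImplicit false

namespace Pool.Agent.SZT.H24

open Polynomial
open Pool.Agent.MNT (QU vC)
open scoped Classical

theorem roots_prod5 (θ : Fin 5 → ℂ) :
    (∏ i, (X - C (θ i)) : ℂ[X]).roots = (Finset.univ : Finset (Fin 5)).val.map θ := by
  rw [roots_prod _ _ (Finset.prod_ne_zero_iff.2 fun p _ => X_sub_C_ne_zero _)]
  simp only [roots_X_sub_C]
  rw [Multiset.bind_singleton]

theorem oka (hO : OdaStmt) : OkaStmt := by
  intro θ a N U W hθ hsol i R hR hcase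
  have hne : (∏ i, (X - C (θ i)) : ℂ[X]) ≠ 0 :=
    Finset.prod_ne_zero_iff.2 fun p _ => X_sub_C_ne_zero _
  have hcnt : BHT.cnt norm (∏ i, (X - C (θ i)) : ℂ[X]) (θ i) (R / 2) =
      ((Finset.univ : Finset (Fin 5)).filter fun k => ‖θ k - θ i‖ ≤ R / 2).card := by
    unfold BHT.cnt
    rw [roots_prod5, Multiset.countP_map, ← Finset.filter_val, Finset.card_val]
  have hv : ∀ z : ℂ, vC z = ‖z‖ := fun z => rfl
  refine hO (∏ i, (X - C (θ i))) a N U W hne hsol (θ i) R hR ?_ ?_
  · rw [hcnt]
    rcases hcase with h | h
    · have h1 : ((Finset.univ : Finset (Fin 5)).filter fun k => ‖θ k - θ i‖ ≤ R / 2) = {i} := by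
        ext k
        simp only [Finset.mem_filter, Finset.mem_univ, true_and, Finset.mem_singleton]
        constructor
        · intro hk
          by_contra hki
          have h2 := h k hki
          rw [hv] at h2
          linarith
        · rintro rfl
          rw [sub_self, norm_zero]
          linarith
      rw [h1, Finset.card_singleton]
      exact odd_one
    · have h1 : ((Finset.univ : Finset (Fin 5)).filter fun k => ‖θ k - θ i‖ ≤ R / 2) =
          Finset.univ := by
        ext k
        simp only [Finset.mem_filter, Finset.mem_univ, true_and, iff_true]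
        have h2 := h k
        rw [hv, Real.exp_log (by norm_num)] at h2
        linarith
      rw [h1, Finset.card_univ, Fintype.card_fin]
      decide
  · intro α hα
    rw [roots_prod5, Multiset.mem_map] at hα
    obtain ⟨k, _, rfl⟩ := hα
    rcases hcase with h | h
    · by_cases hki : k = i
      · subst hki
        left
        rw [sub_self, norm_zero]
        linarith
      · right
        exact h k hki
    · left
      have h2 := h k
      rw [hv, Real.exp_log (by norm_num)] at h2
      linarith

end Pool.Agent.SZT.H24
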